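import Pool.Agent.NH56.HY.Stm

/-!
# Project HY, part NWT: the Newton polygon in degree two at the ordinary places
-/

set_option autoImplicit false

namespace Pool.Agent.NH66.HY.Nwt

open Pool.Agent.NH56.HY Polynomial

/-- the sum of two elements of `0, 2, 1, ..., 1` is at least one -/
theorem sum_two {b : ℕ} {t : Multiset ℝ} (ht : t ≤ 0 ::ₘ 2 ::ₘ Multiset.replicate (b - 2) 1)
    (hc : t.card = 2) : 1 ≤ t.sum := by
  obtain ⟨u, v, rfl⟩ := Multiset.card_eq_two.1 hc
  have hu : u ∈ (0 ::ₘ 2 ::ₘ Multiset.replicate (b - 2) (1 : ℝ)) :=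
    Multiset.mem_of_le ht (by simp)
  have hv : v ∈ (0 ::ₘ 2 ::ₘ Multiset.replicate (b - 2) (1 : ℝ)) :=
    Multiset.mem_of_le ht (by simp)
  have h0 := Multiset.count_le_of_le 0 ht
  have h1 : Multiset.count (0 : ℝ) (0 ::ₘ 2 ::ₘ Multiset.replicate (b - 2) (1 : ℝ)) = 1 := by
    rw [Multiset.count_cons_self, Multiset.count_cons_of_ne (by norm_num),
      Multiset.count_replicate]
    norm_num
  rw [h1] at h0
  have hu' : u = 0 ∨ 1 ≤ u := by
    simp only [Multiset.mem_cons] at hu
    rcases hu with h | h | h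
    · exact Or.inl h
    · right; rw [h]; norm_num
    · right; rw [Multiset.eq_of_mem_replicate h]
  have hv' : v = 0 ∨ 1 ≤ v := by
    simp only [Multiset.mem_cons] at hv
    rcases hv with h | h | h
    · exact Or.inl h
    · right; rw [h]; norm_num
    · right; rw [Multiset.eq_of_mem_replicate h]
  have hs : ({u, v} : Multiset ℝ).sum = u + v := by simp
  rw [hs]
  rcases hu' with h | h
  · rcases hv' with h' | h'
    · exfalso
      rw [h, h'] at h0
      have : Multiset.count (0 : ℝ) ({0, 0} : Multiset ℝ) = 2 := by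
        rw [Multiset.insert_eq_cons, Multiset.count_cons_self, Multiset.count_singleton_self]
      omega
    · linarith
  · rcases hv' with h' | h' <;> linarith

/-- the combinatorial part -/
theorem comb {b : ℕ} {N : Multiset ℝ}
    (hL : LiesAbove N (0 ::ₘ 2 ::ₘ Multiset.replicate (b - 2) 1))
    (hN : N.map (fun x => 2 - x) = N) (h0 : 0 ∈ N) : (N.map fun x => (x - 1) ^ 2).sum = 2 := by
  obtain ⟨N', rfl⟩ := Multiset.exists_cons_of_mem h0
  have h2 : (2 : ℝ) ∈ N' := by
    have : (2 : ℝ) ∈ (0 ::ₘ N') := by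
      rw [← hN, Multiset.map_cons]
      simp
    simpa using this
  obtain ⟨M, rfl⟩ := Multiset.exists_cons_of_mem h2
  have hM : M.map (fun x => 2 - x) = M := by
    rw [Multiset.map_cons, Multiset.map_cons, sub_zero, sub_self,
      Multiset.cons_swap (2 : ℝ) 0] at hN
    exact (Multiset.cons_inj_right _).1 ((Multiset.cons_inj_right _).1 hN)
  have h1 : ∀ x ∈ M, 1 ≤ x := by
    intro x hx
    have hle : ({0, x} : Multiset ℝ) ≤ 0 ::ₘ 2 ::ₘ M := by
      rw [Multiset.insert_eq_cons]
      apply Multiset.cons_le_cons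
      rw [Multiset.singleton_le]
      exact Multiset.mem_cons_of_mem hx
    obtain ⟨t, ht, htc, hts⟩ := hL.2.2 _ hle
    have := sum_two ht (by rw [htc]; simp)
    simp at hts
    linarith
  have h1' : ∀ x ∈ M, x = 1 := by
    intro x hx
    have ha := h1 x hx
    have hb : (2 - x) ∈ M := by
      rw [← hM]
      exact Multiset.mem_map_of_mem _ hx
    have hc := h1 _ hb
    linarith
  have h3 : M.map (fun x => (x - 1) ^ 2) = M.map (fun _ => (0 : ℝ)) := by
    apply Multiset.map_congr rfl
    intro x hx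
    rw [h1' x hx]; norm_num
  rw [Multiset.map_cons, Multiset.map_cons, h3]
  simp
  norm_num

/-- the sum of a multiset of small numbers is small -/
theorem norm_sum_lt {F : Type} [NormedField F] [IsUltrametricDist F] (R : Multiset F)
    (h : ∀ y ∈ R, ‖y‖ < 1) : ‖R.sum‖ < 1 := by
  induction R using Multiset.induction_on with
  | empty => simp
  | cons a s ih =>
    rw [Multiset.sum_cons]
    refine lt_of_le_of_lt (IsUltrametricDist.norm_add_le_max _ _) (max_lt ?_ ?_)
    · exact h a (Multiset.mem_cons_self _ _)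
    · exact ih fun y hy => h y (Multiset.mem_cons_of_mem hy)

theorem norm_nat (p : ℕ) [Fact p.Prime] : ‖((p : ℕ) : PadicAlgCl p)‖ = (p : ℝ)⁻¹ := by
  have h := PadicAlgCl.norm_extends p (p : ℚ_[p])
  rw [Padic.norm_p] at h
  rw [← h]
  congr 1

theorem dvd_of_norm_lt (p : ℕ) [Fact p.Prime] (c : ℤ) (h : ‖((c : ℤ) : PadicAlgCl p)‖ < 1) :
    (p : ℤ) ∣ c := by
  have h1 := PadicAlgCl.norm_extends p (c : ℚ_[p])
  have h2 : ((c : ℚ_[p]) : PadicAlgCl p) = (c : PadicAlgCl p) := by
    simp
  rw [h2] at h1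
  rw [h1] at h
  exact (Padic.norm_intCast_lt_one_iff).1 h

theorem root_aeval {P : ℤ[X]} {z : ℂ} (h : z ∈ (P.map (Int.castRingHom ℂ)).roots) :
    aeval z P = 0 := by
  have h1 := (mem_roots'.1 h).2
  rw [IsRoot.def, eval_map] at h1
  rw [aeval_def, algebraMap_int_eq]
  exact h1

/-- the roots in the algebraic numbers are stable under `a ↦ p ^ 2 / a` -/
theorem roots_inv (hA : S_ARI) {P : ℤ[X]} {p : ℕ}
    (hW : ∀ z : ℂ, aeval z P = 0 → ‖z‖ ^ 2 = (p : ℝ) ^ 2)
    (s : AlgebraicClosure ℚ →+* ℂ) (h0 : ∀ z : ℂ, aeval z P = 0 → z ≠ 0) :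
    (P.map (Int.castRingHom (AlgebraicClosure ℚ))).roots.map (fun a => (p : AlgebraicClosure ℚ) ^ 2 / a) =
      (P.map (Int.castRingHom (AlgebraicClosure ℚ))).roots := by
  have hC := hA.1 P ℂ s
  have hconj : (P.map (Int.castRingHom ℂ)).roots.map (starRingEnd ℂ) =
      (P.map (Int.castRingHom ℂ)).roots := by
    rw [← (IsAlgClosed.splits (P.map (Int.castRingHom ℂ))).roots_map (starRingEnd ℂ),
      Polynomial.map_map]
    congr 2
    exact Subsingleton.elim _ _
  have hinv : (P.map (Int.castRingHom ℂ)).roots.map (fun z => (p : ℂ) ^ 2 / z) =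
      (P.map (Int.castRingHom ℂ)).roots := by
    rw [← hconj, Multiset.map_map]
    conv_rhs => rw [← hconj]
    rw [Multiset.map_map]
    apply Multiset.map_congr rfl
    intro z hz
    have hz1 : aeval z P = 0 := root_aeval hz
    have hz2 := hW z hz1
    have hz0 := h0 z hz1
    have h3 : z * (starRingEnd ℂ) z = (p : ℂ) ^ 2 := by
      rw [Complex.mul_conj, Complex.normSq_eq_norm_sq, hz2]
      push_cast
      ring
    have h4 : (starRingEnd ℂ) z ≠ 0 := by
      simpa using hz0
    simp only [Function.comp]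
    rw [← h3, Complex.conj_conj]
    field_simp
  apply Multiset.map_injective s.injective
  rw [← hC, Multiset.map_map]
  conv_rhs => rw [← hinv, hC]
  rw [Multiset.map_map]
  apply Multiset.map_congr rfl
  intro a _
  simp [map_div₀]

theorem exists_hom (k Ω : Type) [Field k] [Field Ω] [Algebra k Ω] [IsAlgClosed Ω] :
    Nonempty (AlgebraicClosure k →+* Ω) :=
  ⟨(IsAlgClosed.lift : AlgebraicClosure k →ₐ[k] Ω).toRingHom⟩

theorem t_NWT : S_ARI → S_NWT := by
  intro hA P p b _ hb hP hdeg hW hL hcoef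
  have hp : (1 : ℝ) < p := by exact_mod_cast (Fact.out : p.Prime).one_lt
  have hp0 : (0 : ℝ) < p := by linarith
  -- embeddings
  obtain ⟨s⟩ := exists_hom ℚ ℂ
  obtain ⟨π⟩ := exists_hom ℚ (PadicAlgCl p)
  have h0 : ∀ z : ℂ, aeval z P = 0 → z ≠ 0 := by
    intro z hz h
    have := hW z hz
    rw [h, norm_zero] at this
    have h5 : (0 : ℝ) < (p : ℝ) ^ 2 := by positivity
    rw [← this] at h5
    norm_num at h5
  have hinv := roots_inv hA hW s h0
  set R0 := (P.map (Int.castRingHom (AlgebraicClosure ℚ))).roots with hR0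
  have hR := hA.1 P (PadicAlgCl p) π
  rw [← hR0] at hR
  set R := (P.map (Int.castRingHom (PadicAlgCl p))).roots with hRdef
  have hRinv : R.map (fun y => (p : PadicAlgCl p) ^ 2 / y) = R := by
    conv_rhs => rw [hR, ← hinv, Multiset.map_map]
    rw [hR, Multiset.map_map]
    apply Multiset.map_congr rfl
    intro a _
    simp [map_div₀]
  have hne : ∀ y ∈ R, y ≠ 0 := by
    intro y hy
    rw [hR] at hy
    obtain ⟨a, ha, rfl⟩ := Multiset.mem_map.1 hy
    have h1 : aeval (s a) P = 0 := by
      apply root_aeval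
      rw [hA.1 P ℂ s]
      exact Multiset.mem_map_of_mem _ ha
    have h3 := h0 _ h1
    intro h4
    apply h3
    rw [map_eq_zero] at h4
    rw [h4, map_zero]
  have hNdef : newton p P = R.map fun y => -Real.logb p ‖y‖ := rfl
  have hsym : (newton p P).map (fun x => 2 - x) = newton p P := by
    conv_rhs => rw [hNdef, ← hRinv, Multiset.map_map]
    rw [hNdef, Multiset.map_map]
    apply Multiset.map_congr rfl
    intro y hy
    have hy0 := hne y hy
    have hy1 : ‖y‖ ≠ 0 := norm_ne_zero_iff.2 hy0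
    simp only [Function.comp]
    rw [norm_div, norm_pow, norm_nat, Real.logb_div (by positivity) hy1, Real.logb_pow,
      Real.logb_inv, Real.logb_self_eq_one hp]
    push_cast
    ring
  have hpos : ∀ x ∈ newton p P, 0 ≤ x := by
    intro x hx
    obtain ⟨t, ht, htc, hts⟩ := hL.2.2 {x} (Multiset.singleton_le.2 hx)
    rw [Multiset.card_singleton] at htc
    obtain ⟨u, rfl⟩ := Multiset.card_eq_one.1 htc
    have hu : u ∈ (0 ::ₘ 2 ::ₘ Multiset.replicate (b - 2) (1 : ℝ)) :=
      Multiset.mem_of_le ht (by simp)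
    have hu0 : 0 ≤ u := by
      simp only [Multiset.mem_cons] at hu
      rcases hu with h | h | h
      · rw [h]
      · rw [h]; norm_num
      · rw [Multiset.eq_of_mem_replicate h]; norm_num
    simp at hts
    linarith
  have hzero : (0 : ℝ) ∈ newton p P := by
    by_contra hcon
    have hlt : ∀ y ∈ R, ‖y‖ < 1 := by
      intro y hy
      have hx : (-Real.logb p ‖y‖) ∈ newton p P := by
        rw [hNdef]
        exact Multiset.mem_map_of_mem (fun y => -Real.logb p ‖y‖) hy
      have h1 := hpos _ hx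
      have h2 : -Real.logb p ‖y‖ ≠ 0 := fun h => hcon (h ▸ hx)
      have h3 : Real.logb p ‖y‖ < 0 := by
        rcases lt_or_eq_of_le h1 with h | h
        · linarith
        · exact absurd h.symm h2
      have hy1 : 0 < ‖y‖ := norm_pos_iff.2 (hne y hy)
      by_contra h4
      push Not at h4
      have := Real.logb_nonneg hp h4
      linarith
    have hsum := norm_sum_lt R hlt
    apply hcoef
    apply dvd_of_norm_lt
    have hm : (P.map (Int.castRingHom (PadicAlgCl p))).Monic := hP.map _
    have hd : (P.map (Int.castRingHom (PadicAlgCl p))).natDegree = b := by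
      rw [hP.natDegree_map, hdeg]
    have hnext := (IsAlgClosed.splits
      (P.map (Int.castRingHom (PadicAlgCl p)))).nextCoeff_eq_neg_sum_roots_of_monic hm
    rw [nextCoeff_of_natDegree_pos (by omega), hd, coeff_map] at hnext
    have h6 : ((P.coeff (b - 1) : ℤ) : PadicAlgCl p) = -R.sum := by
      rw [hRdef, ← hnext]
      simp
    rw [h6, norm_neg]
    exact hsum
  exact comb hL hsym hzero

end Pool.Agent.NH66.HY.Nwt
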